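import Mathlib

set_option autoImplicit false

namespace Pool.Agent.Results.MP_dc8297_co.Disproof

/-- A simple ordered 2-stage graph with both classes `Fin n` is a relation `L`; it is
regular of degree `k` if all sources and all targets have degree `k`. -/
def Regular {n : ℕ} (L : Fin n → Fin n → Prop) (k : ℕ) : Prop :=
  (∀ s, {t | L s t}.ncard = k) ∧ ∀ t, {s | L s t}.ncard = k

/-- A plain path in `L^m`: one vertex in each of the `m + 1` stages. -/
def IsPlain {n : ℕ} (L : Fin n → Fin n → Prop) (m : ℕ) (p : Fin (m + 1) → Fin n) : Prop :=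
  ∀ j : Fin m, L (p j.castSucc) (p j.succ)

/-- `L^m` is externally connected. -/
def ExtConnected {n : ℕ} (L : Fin n → Fin n → Prop) (m : ℕ) : Prop :=
  ∀ s t, ∃ p, IsPlain L m p ∧ p 0 = s ∧ p (Fin.last m) = t

/-- `L^m` is rearrangeable: every mask (a multigraph with edge set `E` and the degrees of
`L^m` at sources and targets) is routed by pairwise edge-disjoint plain paths. -/
def Rearrangeable {n : ℕ} (L : Fin n → Fin n → Prop) (m : ℕ) : Prop :=
  ∀ (E : Type) [Fintype E] (src tgt : E → Fin n),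
    (∀ s, {e | src e = s}.ncard = {t | L s t}.ncard) →
    (∀ t, {e | tgt e = t}.ncard = {s | L s t}.ncard) →
    ∃ P : E → Fin (m + 1) → Fin n,
      (∀ e, IsPlain L m (P e) ∧ P e 0 = src e ∧ P e (Fin.last m) = tgt e) ∧
      ∀ e e', e ≠ e' → ∀ j : Fin m,
        ¬ (P e j.castSucc = P e' j.castSucc ∧ P e j.succ = P e' j.succ)

def L (s t : Fin 5) : Prop := Nat.testBit (![7, 7, 28, 25, 26] s) t.val = true

instance : DecidableRel L := fun s t => by unfold L; infer_instance

lemma card_eq {α : Type} [Fintype α] (p : α → Prop) [DecidablePred p] :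
    {x | p x}.ncard = (Finset.univ.filter p).card := by
  rw [← Set.ncard_coe_finset]
  congr 1
  ext x
  simp

lemma reg : Regular L 3 := by
  constructor <;> intro s <;> rw [card_eq] <;> revert s <;> decide

lemma conn : ExtConnected L 2 := by
  have h : ∀ s t, ∃ u, L s u ∧ L u t := by decide
  intro s t
  obtain ⟨u, h1, h2⟩ := h s t
  refine ⟨![s, u, t], fun j => ?_, rfl, rfl⟩
  fin_cases j
  · exact h1
  · exact h2

def tg : Fin 5 → Fin 5 := ![3, 4, 0, 1, 2]

set_option synthInstance.maxSize 4000 in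
lemma cut : ∀ a b, L a b → ∀ c, L b c → ∀ d, L c d → L d (tg a) → (a = 0 ∨ a = 1 ∨ a = 4) →
    (a < 2 ∧ b = 2) ∨ (b < 2 ∧ c = 2) ∨ (c < 2 ∧ d = 2) ∨ (d < 2 ∧ tg a = 2) := by
  decide +kernel

theorem result : ∃ (n k m : ℕ) (L : Fin n → Fin n → Prop), 1 ≤ k ∧ 1 ≤ m ∧ Regular L k ∧
    ExtConnected L m ∧ ¬ Rearrangeable L (2 * m) := by
  refine ⟨5, 3, 2, L, by norm_num, by norm_num, reg, conn, fun h => ?_⟩
  obtain ⟨P, h1, h2⟩ := h (Fin 5 × Fin 3) (fun e => e.1) (fun e => tg e.1)
    (by intro s; rw [reg.1, card_eq]; revert s; decide)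
    (by intro s; rw [reg.2, card_eq]; revert s; decide)
  have key : ∀ e : Fin 5 × Fin 3, ∃ j : Fin 4, (e.1 = 0 ∨ e.1 = 1 ∨ e.1 = 4) →
      P e j.castSucc < 2 ∧ P e j.succ = 2 := by
    intro e
    by_cases he : e.1 = 0 ∨ e.1 = 1 ∨ e.1 = 4
    · obtain ⟨hp, h0, h4⟩ := h1 e
      have e0 : L (P e 0) (P e 1) := hp 0
      have e1 : L (P e 1) (P e 2) := hp 1
      have e2 : L (P e 2) (P e 3) := hp 2
      have e3 : L (P e 3) (P e 4) := hp 3
      have h4' : P e 4 = tg e.1 := h4
      rw [h4'] at e3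
      rw [h0] at e0
      rcases cut _ _ e0 _ e1 _ e2 e3 he with h | h | h | h
      · exact ⟨0, fun _ => ⟨by rw [← h0] at h; exact h.1, h.2⟩⟩
      · exact ⟨1, fun _ => h⟩
      · exact ⟨2, fun _ => h⟩
      · exact ⟨3, fun _ => ⟨h.1, h4'.trans h.2⟩⟩
    · exact ⟨0, fun h => absurd h he⟩
  choose j hj using key
  let A : Finset (Fin 5 × Fin 3) := Finset.univ.filter fun e => e.1 = 0 ∨ e.1 = 1 ∨ e.1 = 4
  let B : Finset (Fin 4 × Fin 5) := Finset.univ.filter fun x => x.2 < 2
  have hc : B.card < A.card := by decide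
  obtain ⟨e, he, e', he', hne, heq⟩ := Finset.exists_ne_map_eq_of_card_lt_of_maps_to hc
    (f := fun e => (j e, P e (j e).castSucc))
    (fun e he => by
      simp only [A, B, Finset.coe_filter, Finset.mem_univ, true_and, Set.mem_ofPred_eq] at he ⊢
      exact (hj e he).1)
  simp only [A, Finset.mem_filter, Finset.mem_univ, true_and] at he he'
  simp only [Prod.mk.injEq] at heq
  apply h2 e e' hne (j e)
  refine ⟨by rw [heq.2, heq.1], ?_⟩
  rw [(hj e he).2, heq.1, (hj e' he').2]

end Pool.Agent.Results.MP_dc8297_co.Disproof
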